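import Pool.Agent.helper60.DK.Spec

namespace Pool.Agent.helper60.DK

open Polynomial Finset

/-- evaluation of an integer polynomial commutes with ring homomorphisms -/
theorem aeval_hom_helper75 {A B : Type*} [CommRing A] [CommRing B] (f : A →+* B) (x : A)
    (P : ℤ[X]) : aeval (f x) P = f (aeval x P) := by
  rw [aeval_def, aeval_def, hom_eval₂]
  have h : f.comp (algebraMap ℤ A) = algebraMap ℤ B := RingHom.ext_int _ _
  rw [h]

theorem legendreSym_three_one_helper75 [Fact (Nat.Prime 3)] : legendreSym 3 1 = 1 := by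
  rw [legendreSym.at_one]

theorem legendreSym_three_two_helper75 [Fact (Nat.Prime 3)] : legendreSym 3 2 = -1 := by
  rw [legendreSym.at_two (by norm_num)]
  decide

/-- the Legendre symbol of `-3` and the parity of `p/3` -/
theorem legendre_neg_three_helper75 (p : ℕ) [Fact p.Prime] (hp : 5 ≤ p) :
    legendreSym p (-3) = (-1) ^ (nn p) := by
  have hpp : p.Prime := Fact.out
  have h2 : p ≠ 2 := by omega
  have hodd : p % 2 = 1 := by
    rcases hpp.eq_two_or_odd with h | h
    · exact absurd h h2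
    · exact h
  have h3 : ¬ 3 ∣ p := by
    intro h
    rcases hpp.eq_one_or_self_of_dvd 3 h with h | h <;> omega
  have h3f : Fact (Nat.Prime 3) := ⟨Nat.prime_three⟩
  have e1 : legendreSym p (-1) = (-1) ^ (p / 2) := by
    rw [legendreSym.at_neg_one h2, ZMod.χ₄_eq_neg_one_pow hodd]
  have e2 : legendreSym p 3 = (-1) ^ (p / 2) * legendreSym 3 p := by
    have := legendreSym.quadratic_reciprocity' (p := 3) (q := p) (by norm_num) h2
    simpa using this
  have e3 : legendreSym p (-3) = legendreSym 3 p := by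
    have : (-3 : ℤ) = (-1) * 3 := by norm_num
    rw [this, legendreSym.mul, e1, e2, ← mul_assoc, ← pow_add, ← two_mul, pow_mul]
    norm_num
  rw [e3, legendreSym.mod]
  have hn : nn p = p / 3 := rfl
  have hcase : p % 3 = 1 ∨ p % 3 = 2 := by omega
  rcases hcase with h | h
  · have hev : Even (nn p) := by
      rw [hn, Nat.even_iff]; omega
    have hz : ((p : ℤ) % ((3 : ℕ) : ℤ)) = 1 := by omega
    rw [hz, hev.neg_one_pow]
    exact legendreSym_three_one_helper75
  · have hev : Odd (nn p) := by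
      rw [hn, Nat.odd_iff]; omega
    have hz : ((p : ℤ) % ((3 : ℕ) : ℤ)) = 2 := by omega
    rw [hz, hev.neg_one_pow]
    exact legendreSym_three_two_helper75

/-- the core computation in a field containing a square root of 2 -/
theorem P12_core_helper75 (hWF : WF_stmt) (hME : ME_stmt) (hPAR : PAR_stmt)
    (p : ℕ) [Fact p.Prime] (F : Type) [Field F] [CharP F p] (hp : 5 ≤ p)
    (hleg : legendreSym p (-6) = -1) (s : F) (hs : s ^ 2 = 2)
    (hleg2 : ((legendreSym p 2 : ℤ) : F) = s ^ (p - 1)) :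
    aeval (1 / 2 : F) (Sz p) = 0 := by
  have hcast : ∀ k : ℕ, 0 < k → k < p → (k : F) ≠ 0 := by
    intro k hk hkp h
    rw [CharP.cast_eq_zero_iff F p] at h
    exact absurd (Nat.le_of_dvd hk h) (by omega)
  have h2 : (2 : F) ≠ 0 := by
    have := hcast 2 (by norm_num) (by omega); exact_mod_cast this
  have h3 : (3 : F) ≠ 0 := by
    have := hcast 3 (by norm_num) (by omega); exact_mod_cast this
  have hs0 : s ≠ 0 := by
    rintro rfl
    apply h2
    rw [← hs]; ring
  have hme := hME p F hp s hs0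
  have h4 : (4 : F) ≠ 0 := by
    have : (4 : F) = 2 * 2 := by norm_num
    rw [this]; exact mul_ne_zero h2 h2
  have h8 : (8 : F) ≠ 0 := by
    have : (8 : F) = 2 * 4 := by norm_num
    rw [this]; exact mul_ne_zero h2 h4
  have h16 : (16 : F) ≠ 0 := by
    have : (16 : F) = 4 * 4 := by norm_num
    rw [this]; exact mul_ne_zero h4 h4
  have hb : -((s - 1) ^ 2 * (s + 2)) / 4 = (s - 2) / 4 := by
    rw [div_left_inj' h4]
    have : -((s - 1) ^ 2 * (s + 2)) = (s - 2) - (s ^ 2 - 2) * s := by ring
    rw [this, hs]; ring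
  have ha : -((s - 1) * (s + 2) ^ 2) / (2 * s ^ 3) = -1 - (s - 2) / 4 := by
    have e : -1 - (s - 2) / 4 = -(s + 2) / 4 := by field_simp; ring
    rw [e, div_eq_div_iff (mul_ne_zero h2 (pow_ne_zero 3 hs0)) h4]
    have hz : -((s - 1) * (s + 2) ^ 2) * 4 - -(s + 2) * (2 * s ^ 3)
        = (s ^ 2 - 2) * (s + 2) * (2 * s - 4 + 4) - (s ^ 2 - 2) * (4 * (s + 2)) := by ring
    have hz' : -((s - 1) * (s + 2) ^ 2) * 4 - -(s + 2) * (2 * s ^ 3) = 0 := by
      rw [hz, hs]; ring
    exact sub_eq_zero.mp hz'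
  rw [hb, ha] at hme
  have hyy : (s - 2) / 4 * (1 + (s - 2) / 4) = -1 / 8 := by
    have : (s - 2) / 4 * (1 + (s - 2) / 4) = (s ^ 2 - 4) / 16 := by
      field_simp; ring
    rw [this, hs, div_eq_div_iff h16 h8]; norm_num
  generalize (s - 2) / 4 = y at hme hyy
  have hpar : aeval (-1 - y) (Dz (nn p)) = (-1) ^ (nn p) * aeval y (Dz (nn p)) := by
    have h := congrArg (fun P => aeval y P) (hPAR (nn p))
    simp only [map_mul, map_pow, map_neg, map_one, aeval_comp, map_sub, aeval_X] at h
    exact h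
  rw [hpar] at hme
  have hprod : ((legendreSym p 2 : ℤ) : F) * (-1) ^ (nn p) = -1 := by
    have h := legendre_neg_three_helper75 p hp
    have h6 : legendreSym p (-6) = legendreSym p 2 * legendreSym p (-3) := by
      rw [← legendreSym.mul]; norm_num
    rw [hleg, h] at h6
    have h7 := congrArg (fun z : ℤ => (z : F)) h6
    push_cast at h7
    exact h7.symm
  rw [← hleg2, ← mul_assoc, hprod] at hme
  have hD : aeval y (Dz (nn p)) = 0 := by
    have h : 2 * aeval y (Dz (nn p)) = 0 := by
      have h' : aeval y (Dz (nn p)) + aeval y (Dz (nn p)) = 0 := by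
        nth_rewrite 1 [← hme]; ring
      rw [two_mul]; exact h'
    exact (mul_eq_zero.mp h).resolve_left h2
  -- the value
  have hx1 : (1 : F) + 1 / 2 ≠ 0 := by
    have e : (1 : F) + 1 / 2 = 3 / 2 := by field_simp; norm_num
    rw [e]; exact div_ne_zero h3 h2
  have hrel : 16 * (1 + 1 / 2 : F) ^ 3 * (y * (1 + y)) = -27 * (1 / 2) ^ 2 := by
    rw [hyy]
    field_simp
    norm_num
  have hwf := hWF p F hp (1 / 2) y hx1 hrel
  rw [hD] at hwf
  rw [hwf]; ring

theorem P12 (hWF : WF_stmt) (hME : ME_stmt) (hPAR : PAR_stmt) : P12_stmt := by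
  intro p hpf hp hleg
  have hpp : p.Prime := Fact.out
  have hodd : p % 2 = 1 := by
    rcases hpp.eq_two_or_odd with h | h
    · omega
    · exact h
  obtain ⟨s, hs⟩ := IsAlgClosed.exists_pow_nat_eq (2 : AlgebraicClosure (ZMod p)) (n := 2)
    (by norm_num)
  have hleg2 : ((legendreSym p 2 : ℤ) : AlgebraicClosure (ZMod p)) = s ^ (p - 1) := by
    have h := legendreSym.eq_pow p 2
    have h' := congrArg (algebraMap (ZMod p) (AlgebraicClosure (ZMod p))) h
    rw [map_intCast, map_pow, map_intCast] at h'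
    rw [h']
    have e : p - 1 = 2 * (p / 2) := by omega
    rw [e, pow_mul, hs]
    norm_num
  have hval := P12_core_helper75 hWF hME hPAR p (AlgebraicClosure (ZMod p)) hp hleg s hs hleg2
  have hmap := aeval_hom_helper75 (algebraMap (ZMod p) (AlgebraicClosure (ZMod p)))
    (1 / 2 : ZMod p) (Sz p)
  have hhalf : algebraMap (ZMod p) (AlgebraicClosure (ZMod p)) (1 / 2) = 1 / 2 := by
    rw [map_div₀, map_one]
    congr 1
  rw [hhalf, hval] at hmap
  exact (map_eq_zero (algebraMap (ZMod p) (AlgebraicClosure (ZMod p)))).mp hmap.symm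

end Pool.Agent.helper60.DK
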